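import Pool.Agent.H321.IR.Main

/-!
# The lower irredundance number of the three-dimensional rooks graph is at least `n ^ 2 / 3`

Every maximal irredundant set of the graph on the cells of the `n × n × n` board, in which two cells
are adjacent iff they differ in exactly one coordinate, has at least `n ^ 2 / 3` members. The general
inequality between the domination number and the lower irredundance number gives only
about `n ^ 2 / 4`; the conjectured value is `⌈n ^ 2 / 2⌉`.
-/

set_option autoImplicit false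

namespace Pool.Agent.Results.MP_41d1ec_co.ThirdOfSquare

open Pool.Agent.H321.IR

theorem nr_iff {n : ℕ} (u w : Fin 3 → Fin n) : nr u w ↔ (w = u ∨ hammingDist u w = 1) := by
  constructor
  · rintro ⟨d, hd⟩
    by_cases h : w = u
    · exact Or.inl h
    · right
      have h1 : hammingDist u w ≤ 1 := by
        unfold hammingDist
        refine Finset.card_le_one.2 fun a ha b hb => ?_
        simp only [Finset.mem_filter, Finset.mem_univ, true_and] at ha hb
        have h2 : a = d := by
          by_contra hcon; exact ha (hd a hcon)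
        have h3 : b = d := by
          by_contra hcon; exact hb (hd b hcon)
        rw [h2, h3]
      have h2 : 0 < hammingDist u w := hammingDist_pos.2 (fun h' => h h'.symm)
      omega
  · rintro (h | h)
    · rw [h]; exact nr_refl u
    · unfold hammingDist at h
      obtain ⟨d, hd⟩ := Finset.card_eq_one.1 h
      refine ⟨d, fun i hi => ?_⟩
      by_contra hcon
      have h1 : i ∈ ({d} : Finset (Fin 3)) := by
        rw [← hd]; simpa using hcon
      exact hi (by simpa using h1)

/-- Every maximal irredundant set `S` of the three-dimensional rooks graph satisfies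
`n ^ 2 ≤ 3 |S|`, and hence the lower irredundance number (written as in the frozen statement) is at
least `n ^ 2 / 3`. -/
theorem result :
    ∀ (n : ℕ) (G : SimpleGraph (Fin 3 → Fin n)),
      (∀ x y : Fin 3 → Fin n, G.Adj x y ↔ hammingDist x y = 1) →
      (∀ S : Finset (Fin 3 → Fin n),
        (∀ v ∈ S, ∃ w : Fin 3 → Fin n, (w = v ∨ G.Adj v w) ∧
            ∀ u ∈ S, u ≠ v → ¬ (w = u ∨ G.Adj u w)) →
        (∀ T : Finset (Fin 3 → Fin n), S ⊆ T →
            (∀ v ∈ T, ∃ w : Fin 3 → Fin n, (w = v ∨ G.Adj v w) ∧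
                ∀ u ∈ T, u ≠ v → ¬ (w = u ∨ G.Adj u w)) → T = S) →
        n ^ 2 ≤ 3 * S.card) ∧
      n ^ 2 ≤ 3 * sInf {k : ℕ | ∃ S : Finset (Fin 3 → Fin n),
          (∀ v ∈ S, ∃ w : Fin 3 → Fin n, (w = v ∨ G.Adj v w) ∧
              ∀ u ∈ S, u ≠ v → ¬ (w = u ∨ G.Adj u w)) ∧
          (∀ T : Finset (Fin 3 → Fin n), S ⊆ T →
              (∀ v ∈ T, ∃ w : Fin 3 → Fin n, (w = v ∨ G.Adj v w) ∧
                  ∀ u ∈ T, u ≠ v → ¬ (w = u ∨ G.Adj u w)) → T = S) ∧
          S.card = k} := by
  classical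
  intro n G hG
  have hnr : ∀ u w : Fin 3 → Fin n, (w = u ∨ G.Adj u w) ↔ nr u w := fun u w => by
    rw [nr_iff, hG]
  have hirr : ∀ S : Finset (Fin 3 → Fin n),
      (∀ v ∈ S, ∃ w : Fin 3 → Fin n, (w = v ∨ G.Adj v w) ∧
            ∀ u ∈ S, u ≠ v → ¬ (w = u ∨ G.Adj u w)) ↔ Irr S := by
    intro S
    refine forall₂_congr fun v _ => ?_
    constructor
    · rintro ⟨w, h1, h2⟩
      exact ⟨w, mem_P.2 ⟨(hnr _ _).1 h1, fun u hu hne h => h2 u hu hne ((hnr _ _).2 h)⟩⟩
    · rintro ⟨w, hw⟩
      obtain ⟨h1, h2⟩ := mem_P.1 hw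
      exact ⟨w, (hnr _ _).2 h1, fun u hu hne h => h2 u hu hne ((hnr _ _).1 h)⟩
  simp only [hirr]
  have key : ∀ S : Finset (Fin 3 → Fin n), Irr S →
      (∀ T : Finset (Fin 3 → Fin n), S ⊆ T → Irr T → T = S) → n ^ 2 ≤ 3 * S.card :=
    fun S h1 h2 => bound h1 h2
  refine ⟨key, ?_⟩
  have hne : {k : ℕ | ∃ S : Finset (Fin 3 → Fin n), Irr S ∧
      (∀ T : Finset (Fin 3 → Fin n), S ⊆ T → Irr T → T = S) ∧ S.card = k}.Nonempty := by
    obtain ⟨S, hS, hmax⟩ := Finset.exists_max_image
      (Finset.univ.filter (fun S : Finset (Fin 3 → Fin n) => Irr S)) Finset.card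
      ⟨∅, Finset.mem_filter.2 ⟨Finset.mem_univ _, fun u hu => absurd hu (Finset.notMem_empty u)⟩⟩
    simp only [Finset.mem_filter, Finset.mem_univ, true_and] at hS hmax
    exact ⟨S.card, S, hS, fun T hT hI => (Finset.eq_of_subset_of_card_le hT (hmax T hI)).symm, rfl⟩
  obtain ⟨S, h1, h2, h3⟩ := Nat.sInf_mem hne
  rw [← h3]
  exact key S h1 h2

end Pool.Agent.Results.MP_41d1ec_co.ThirdOfSquare
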